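import Mathlib
import Pool.Agent.W25.QL.Main
import Pool.Agent.W25.QL.Count
/-!
# Several families of finite sets which meet large classes: their intersection
-/

namespace Pool.Agent.R493.CP

open Finset
open Pool.Agent.W70.QP (Cx mem_Cx)

open Classical in
/-- several families at once -/
theorem nestG (R T K : ℕ) : ∃ K₂ : ℕ, ∀ (α : Type) [DecidableEq α] (G : Fin R → Finset α → Prop),
    (∀ ρ, ∀ F F' : Finset α, F' ⊆ F → G ρ F → G ρ F') → ∀ H : Fin T → Fin K₂ → α,
    Function.Injective (fun x : Fin T × Fin K₂ => H x.1 x.2) →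
    (∀ (ρ : Fin R) (t : Finset (Fin T)) (A : Fin T → Fin K → α), (∀ g i, ∃ j, A g i = H g j) →
      Function.Injective (fun x : Fin T × Fin K => A x.1 x.2) →
      ∃ S ⊆ t, 5 * t.card ≤ 18 * S.card ∧ ∃ c : Fin T → Fin K,
        G ρ (S.image (fun g => A g (c g)))) →
    ∃ (S : Finset (Fin T)) (c : Fin T → Fin K₂), 5 ^ R * T ≤ 18 ^ R * S.card ∧
      ∀ ρ, G ρ (S.image (fun g => H g (c g))) := by
  set Pat := Fin R → Finset (Finset (Fin T)) with hPat
  set M : ℕ := Fintype.card Pat with hM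
  obtain ⟨N, hN⟩ := Pool.Agent.H362R2.CM.box_lemma T (K + 1) (1 / ((M : ℝ) + 1)) (by positivity)
  refine ⟨N, fun α _ G hG H hinj hcl => ?_⟩
  have hHinj : ∀ g, Function.Injective (H g) := fun g i j hij => by
    have := hinj (a₁ := (g, i)) (a₂ := (g, j)) hij
    rw [Prod.mk.injEq] at this
    exact this.2
  set V : Fin T → Finset α := fun g => univ.image (H g) with hV
  have hVc : ∀ g, (V g).card = N := fun g => by
    rw [hV, card_image_of_injective _ (hHinj g), card_univ, Fintype.card_fin]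
  set f : (Fin T → α) → Pat := fun x ρ => Cx (G ρ) x with hf
  have hP0 : (0 : ℝ) ≤ ∏ i, ((V i).card : ℝ) := Finset.prod_nonneg (fun i _ => Nat.cast_nonneg _)
  obtain ⟨σ, _, hσ⟩ := Finset.exists_le_card_fiber_of_nsmul_le_card_of_maps_to
    (s := Fintype.piFinset V) (t := (univ : Finset Pat)) (f := f) (fun _ _ => mem_univ _)
    (⟨fun _ => ∅, mem_univ _⟩) (b := 1 / ((M : ℝ) + 1) * ∏ i, ((V i).card : ℝ)) (by
      rw [nsmul_eq_mul, card_univ, ← hM, Fintype.card_piFinset]
      push_cast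
      rw [← mul_assoc]
      apply mul_le_of_le_one_left hP0
      rw [mul_one_div, div_le_one (by positivity)]
      linarith)
  set B := (Fintype.piFinset V).filter (fun x => f x = σ) with hB
  obtain ⟨A, hA1, hA2⟩ := hN α V (fun g => (hVc g).ge) B (filter_subset _ _) hσ
  have hmem : ∀ g i, ∃ j, A g i = H g j := by
    intro g i
    have h1 := (mem_filter.1 (hA2 (fun _ => i))).1
    rw [Fintype.mem_piFinset] at h1
    obtain ⟨j, _, hj⟩ := mem_image.1 (h1 g)
    exact ⟨j, hj.symm⟩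
  have hAinj : Function.Injective (fun x : Fin T × Fin (K + 1) => A x.1 x.2) := by
    rintro ⟨g, i⟩ ⟨g', i'⟩ h
    simp only at h
    obtain ⟨j, hj⟩ := hmem g i
    obtain ⟨j', hj'⟩ := hmem g' i'
    rw [hj, hj'] at h
    have h1 := hinj (a₁ := (g, j)) (a₂ := (g', j')) h
    rw [Prod.mk.injEq] at h1
    obtain ⟨h2, h3⟩ := h1
    subst h2
    rw [Prod.mk.injEq]
    refine ⟨rfl, hA1 g ?_⟩
    rw [hj, hj', h3]
  have hfib : ∀ (c : Fin T → Fin (K + 1)) (ρ : Fin R) (S : Finset (Fin T)),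
      G ρ (S.image (fun g => A g (c g))) ↔ S ∈ σ ρ := by
    intro c ρ S
    have h1 := (mem_filter.1 (hA2 c)).2
    rw [← h1]
    simp only [hf]
    rw [mem_Cx]
  have key : ∀ n ≤ R, ∃ S : Finset (Fin T), 5 ^ n * T ≤ 18 ^ n * S.card ∧
      ∀ ρ : Fin R, (ρ : ℕ) < n → S ∈ σ ρ := by
    intro n
    induction n with
    | zero =>
      intro _
      exact ⟨univ, by simp, fun ρ hρ => absurd hρ (by omega)⟩
    | succ n ih =>
      intro hn
      obtain ⟨S, hS, hSσ⟩ := ih (by omega)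
      obtain ⟨S', hS', hc, c, hG'⟩ := hcl ⟨n, by omega⟩ S (fun g i => A g (Fin.castSucc i))
        (fun g i => hmem g _) (by
          rintro ⟨g, i⟩ ⟨g', i'⟩ h
          have h1 := hAinj (a₁ := (g, Fin.castSucc i)) (a₂ := (g', Fin.castSucc i')) h
          rw [Prod.mk.injEq] at h1
          rw [Prod.mk.injEq]
          exact ⟨h1.1, Fin.castSucc_injective _ h1.2⟩)
      refine ⟨S', ?_, fun ρ hρ => ?_⟩
      · calc 5 ^ (n + 1) * T = 5 * (5 ^ n * T) := by ring
          _ ≤ 5 * (18 ^ n * S.card) := Nat.mul_le_mul_left _ hS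
          _ = 18 ^ n * (5 * S.card) := by ring
          _ ≤ 18 ^ n * (18 * S'.card) := Nat.mul_le_mul_left _ hc
          _ = 18 ^ (n + 1) * S'.card := by ring
      · by_cases h3 : (ρ : ℕ) < n
        · rw [← hfib (fun _ => 0) ρ]
          exact hG ρ _ _ (image_subset_image hS') ((hfib (fun _ => 0) ρ S).2 (hSσ ρ h3))
        · have h4 : ρ = ⟨n, by omega⟩ := Fin.ext (by simp only; omega)
          rw [h4, ← hfib (fun g => Fin.castSucc (c g))]
          exact hG'
  obtain ⟨S, hS, hSσ⟩ := key R le_rfl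
  choose j hj using hmem
  refine ⟨S, fun g => j g 0, hS, fun ρ => ?_⟩
  have h1 := (hfib (fun _ => 0) ρ S).2 (hSσ ρ ρ.2)
  simp only [hj] at h1
  exact h1

end Pool.Agent.R493.CP
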