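import Mathlib
import Pool.Agent.R493.CP.Nest
import Pool.Agent.Y827.RO.NarF
/-!
# Positions carried by the sequences `2 ^ j n - 1` and `2 ^ j n + 1`
-/

namespace Pool.Agent.R493.CP

open Finset Filter
open Pool.Agent.Y827.GS (cntN cntN_anti Adf adf_ev)
open Pool.Agent.W25.QL (main_gen count_pow QProp)

/-- the signs -/
def sg : Fin 2 → ℤ := ![-1, 1]

theorem sg_unit (ρ : Fin 2) {p : ℕ} (hp : p.Prime) : ¬ (p : ℤ) ∣ sg ρ := by
  intro hd
  have h1 : (p : ℤ) ∣ 1 := by
    fin_cases ρ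
    · exact (dvd_neg.2 hd).trans (by simp [sg])
    · exact hd
  exact (Nat.prime_iff_prime_int.1 hp).not_isUnit (isUnit_of_dvd_one h1)

/-- many `n ≤ N` have all the values `2 ^ j n + s`, `j ∈ F`, prime -/
def Pk (s : ℤ) (C N : ℕ) (F : Finset ℕ) : Prop :=
  (N : ℝ) / (Real.log N) ^ C ≤ (cntN (F.image (fun j => ((2 : ℤ) ^ j, s))) N : ℝ)

theorem Pk_anti (s : ℤ) (C N : ℕ) (F F' : Finset ℕ) (h : F' ⊆ F) (hF : Pk s C N F) : Pk s C N F' := by
  unfold Pk at hF ⊢
  refine hF.trans ?_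
  exact_mod_cast cntN_anti (image_subset_image h) N

open Classical in
/-- most tuples of positions carry primes in both kinds of chains -/
theorem common (k : ℕ) (ε : ℝ) (hε : 0 < ε) : ∃ n₀ C : ℕ, ∀ V : Finset ℕ, n₀ ≤ V.card →
    ∀ᶠ N : ℕ in atTop, ((25 / 324) ^ k - ε) * (V.card : ℝ) ^ (k + 1) ≤
      (((Fintype.piFinset (fun _ : Fin (k + 1) => V)).filter (fun y => Function.Injective y ∧
        ∀ ρ, Pk (sg ρ) C N (univ.image y))).card : ℝ) := by
  choose Kf hKf1 hKf using Pool.Agent.Y827.RO.lamRD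
  set Ks : ℕ → ℕ := fun T => ∑ T' ∈ range (T + 1), Kf T' with hKs
  have hKle : ∀ T' T, T' ≤ T → Kf T' ≤ Ks T := fun T' T h =>
    Finset.single_le_sum (f := Kf) (fun _ _ => Nat.zero_le _) (mem_range.2 (by omega))
  have hK1 : ∀ T, 0 < Ks T := fun T => lt_of_lt_of_le (hKf1 0) (hKle 0 T (Nat.zero_le _))
  choose K₂ hK₂ using (fun T => nestG 2 T (Ks T))
  obtain ⟨T, M, hT, hM⟩ := main_gen (lam := 324 / 25) (by norm_num) k ((25 / 324) ^ k)
    (pow_le_one₀ (by norm_num) (by norm_num)) (by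
      intro ε hε
      have e : (25 / 324 : ℝ) = 1 / (324 / 25) := by norm_num
      rw [e]
      exact count_pow (by norm_num) k ε hε) ε hε K₂
  obtain ⟨n₀, hn₀⟩ := hM Unit
  set C : ℕ := ∑ T' ∈ range (M + 1), (T' * Kf T' + 2) with hCdef
  refine ⟨n₀, C, fun V hV => ?_⟩
  obtain ⟨A, hA⟩ := adf_ev (univ.biUnion (fun ρ : Fin 2 => V.image (fun j => ((2 : ℤ) ^ j, sg ρ)))) (by
    intro f hf
    obtain ⟨ρ, _, hf⟩ := mem_biUnion.1 hf
    obtain ⟨j, _, rfl⟩ := mem_image.1 hf
    refine ⟨by positivity, ?_⟩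
    rw [Int.isCoprime_iff_gcd_eq_one]
    by_contra hne
    obtain ⟨p, hp, hpd⟩ := Nat.exists_prime_and_dvd hne
    have h1 : (p : ℤ) ∣ (Int.gcd ((2 : ℤ) ^ j) (sg ρ) : ℤ) := Int.natCast_dvd_natCast.2 hpd
    exact sg_unit ρ hp (h1.trans (Int.gcd_dvd_right _ _)))
  have hev : ∀ᶠ N : ℕ in atTop, ∀ T' : Fin (M + 1), 1 ≤ (T' : ℕ) →
      ∀ H : Fin (T' : ℕ) → Fin (Kf T') → ℤ × ℤ,
      Function.Injective (fun z : Fin (T' : ℕ) × Fin (Kf T') => H z.1 z.2) →
      (∀ g i, Adf A N (H g i)) →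
      (∀ p : ℕ, p.Prime → p ≤ T' * Kf T' → ∃ r : ℤ, ∀ g i,
        ¬ (p : ℤ) ∣ (H g i).1 * r + (H g i).2) →
      ∃ (S : Finset (Fin (T' : ℕ))) (cc : Fin (T' : ℕ) → Fin (Kf T')),
        ((T' : ℕ) : ℝ) ≤ (18 / 5) * (S.card : ℝ) ∧
        (N : ℝ) / (Real.log N) ^ (T' * Kf T' + 2) ≤
          (cntN (S.image (fun g => H g (cc g))) N : ℝ) := by
    rw [eventually_all]
    intro T'
    by_cases h0 : 1 ≤ (T' : ℕ)
    swap
    · exact Eventually.of_forall fun x h => absurd h h0
    filter_upwards [hKf T' h0 A] with N hN _ H hinj hAd hadm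
    exact hN H hinj hAd hadm
  have hlog : ∀ᶠ N : ℕ in atTop, (1 : ℝ) ≤ Real.log N :=
    (Real.tendsto_log_atTop.comp tendsto_natCast_atTop_atTop).eventually_ge_atTop _
  filter_upwards [hev, hA, hlog] with N hN hAN hl
  refine (hn₀ ℕ V (fun _ => ()) (fun F => ∀ ρ, Pk (sg ρ) C N F) hV
    (fun F F' hF h ρ => Pk_anti _ _ _ _ _ hF (h ρ)) ?_).trans (le_of_eq ?_)
  · intro T' hT'1 hT'M H hHV hinj _
    obtain ⟨S, c, hS, hG⟩ := hK₂ T' ℕ (fun ρ F => Pk (sg ρ) C N F)
      (fun ρ F F' h1 h2 => Pk_anti _ _ _ _ _ h1 h2) H hinj (by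
      intro ρ t A' hA' hA'inj
      have hAV : ∀ g i, A' g i ∈ V := fun g i => by
        obtain ⟨j, hj⟩ := hA' g i
        rw [hj]
        exact hHV g j
      rcases Nat.eq_zero_or_pos t.card with h0 | h0
      · refine ⟨∅, empty_subset _, by omega, fun _ => ⟨0, hK1 T'⟩, ?_⟩
        unfold Pk cntN
        simp only [image_empty, notMem_empty, false_imp_iff, implies_true, filter_true,
          Nat.card_Icc, Nat.add_sub_cancel]
        exact div_le_self (Nat.cast_nonneg _) (one_le_pow₀ hl)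
      have htT : t.card ≤ T' := by
        have := card_le_univ t
        rwa [Fintype.card_fin] at this
      set e := t.orderEmbOfFin rfl with he
      have hemem : ∀ g, e g ∈ t := fun g => t.orderEmbOfFin_mem rfl g
      obtain ⟨S, c, hS, hc⟩ := hN ⟨t.card, by omega⟩ h0
        (fun g i => ((2 : ℤ) ^ (A' (e g) (Fin.castLE (hKle _ _ htT) i)), sg ρ)) (by
          intro x y hxy
          simp only [Prod.mk.injEq, and_true] at hxy
          have h1 : (2 : ℕ) ^ (A' (e x.1) (Fin.castLE (hKle _ _ htT) x.2)) =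
              2 ^ (A' (e y.1) (Fin.castLE (hKle _ _ htT) y.2)) := by exact_mod_cast hxy
          have h2 := Nat.pow_right_injective le_rfl h1
          have h3 := hA'inj (a₁ := (e x.1, Fin.castLE (hKle _ _ htT) x.2))
            (a₂ := (e y.1, Fin.castLE (hKle _ _ htT) y.2)) h2
          rw [Prod.mk.injEq] at h3
          exact Prod.ext (e.injective h3.1) (Fin.castLE_injective _ h3.2))
        (fun g i => hAN _ (mem_biUnion.2 ⟨ρ, mem_univ _, mem_image.2 ⟨_, hAV _ _, rfl⟩⟩))
        (fun p hp _ => ⟨0, fun g i => by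
          simp only [mul_zero, zero_add]
          exact sg_unit ρ hp⟩)
      refine ⟨S.map e.toEmbedding, ?_, ?_,
        Function.extend e (fun g => Fin.castLE (hKle _ _ htT) (c g)) (fun _ => ⟨0, hK1 T'⟩), ?_⟩
      · intro i hi
        obtain ⟨g, _, rfl⟩ := Finset.mem_map.1 hi
        exact hemem g
      · rw [card_map]
        have h5 : (5 * t.card : ℝ) ≤ 18 * S.card := by
          simp only at hS
          linarith
        exact_mod_cast h5
      · unfold Pk
        have e1 : ((S.map e.toEmbedding).image (fun g => A' g ((Function.extend e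
            (fun g => Fin.castLE (hKle _ _ htT) (c g)) (fun _ => ⟨0, hK1 T'⟩)) g))).image
            (fun j => ((2 : ℤ) ^ j, sg ρ)) =
            S.image (fun g => ((2 : ℤ) ^ (A' (e g) (Fin.castLE (hKle _ _ htT) (c g))), sg ρ)) := by
          rw [Finset.map_eq_image, image_image, image_image]
          apply image_congr
          intro g _
          have e2 : (e.toEmbedding : Fin t.card → Fin T') = e := rfl
          simp only [Function.comp, e2]
          rw [e.injective.extend_apply]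
        rw [e1]
        refine le_trans ?_ hc
        exact div_le_div_of_nonneg_left (Nat.cast_nonneg _) (by positivity)
          (pow_le_pow_right₀ hl (single_le_sum (f := fun T' => T' * Kf T' + 2)
            (fun _ _ => Nat.zero_le _) (mem_range.2 (by omega)))))
    refine ⟨S, c, ?_, hG⟩
    have h5 : (25 * T' : ℝ) ≤ 324 * S.card := by exact_mod_cast hS
    linarith
  · congr!

end Pool.Agent.R493.CP
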